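import Pool.Agent.Lib.MP_acafa7_al.MS.Iface3

/-! Module CFG: centralizers are finitely generated. -/

namespace MSG.H35

open MSG

theorem walk_aux {V : Type} (X : Cx V) {Γ : Type} [Group Γ] [MulAction Γ V] (hX : X.IsGeom Γ)
    (g : Γ) (Ω : Set V) (F : Finset V)
    (hcof : ∀ x ∈ Ω, ∃ c : Γ, c * g = g * c ∧ ∃ y ∈ F, c • y = x) (l : List V) :
    ∀ (x w : V), l.IsChain X.G.Adj → l.head? = some x → l.getLast? = some w → (∀ z ∈ l, z ∈ Ω) →
    ∀ c c' : Γ, c * g = g * c → c' * g = g * c' → (∃ y ∈ F, c • y = x) → (∃ y ∈ F, c' • y = w) →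
    c⁻¹ * c' ∈ Subgroup.closure
      {c : Γ | c * g = g * c ∧ ∃ x ∈ F, ∃ y ∈ F, Nr X.G (c • x) y} := by
  have hcomm : ∀ c c' : Γ, c * g = g * c → c' * g = g * c' → (c⁻¹ * c') * g = g * (c⁻¹ * c') := by
    intro c c' h h'
    have h1 : Commute c g := h
    have h2 : Commute c' g := h'
    exact (h1.inv_left.mul_left h2)
  have hgen : ∀ (c c' : Γ) (y y' : V), c * g = g * c → c' * g = g * c' → y ∈ F → y' ∈ F →
      Nr X.G (c' • y') (c • y) → c⁻¹ * c' ∈ Subgroup.closure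
      {c : Γ | c * g = g * c ∧ ∃ x ∈ F, ∃ y ∈ F, Nr X.G (c • x) y} := by
    intro c c' y y' h h' hy hy' hn
    apply Subgroup.subset_closure
    refine ⟨hcomm c c' h h', y', hy', y, hy, ?_⟩
    rcases hn with hn | hn
    · left
      rw [mul_smul, hn, inv_smul_smul]
    · right
      have := (hX.adj c⁻¹ (c' • y') (c • y)).2 hn
      rwa [inv_smul_smul, ← mul_smul] at this
  induction l with
  | nil => intro x w _ h; simp at h
  | cons a l ih =>
    intro x w hch hh hl hΩ c c' hc hc' hy hy'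
    obtain ⟨y, hy, hyx⟩ := hy
    obtain ⟨y', hy', hyw⟩ := hy'
    have hax : a = x := by simpa using hh
    subst hax
    cases l with
    | nil =>
      have hw : a = w := by simpa using hl
      subst hw
      exact hgen c c' y y' hc hc' hy hy' (Or.inl (by rw [hyx, hyw]))
    | cons b l =>
      have hb : b ∈ Ω := hΩ b (by simp)
      obtain ⟨c'', hc'', y'', hy'', hyb⟩ := hcof b hb
      have hch' := List.isChain_cons_cons.1 hch
      have h1 : c⁻¹ * c'' ∈ Subgroup.closure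
          {c : Γ | c * g = g * c ∧ ∃ x ∈ F, ∃ y ∈ F, Nr X.G (c • x) y} := by
        refine hgen c c'' y y'' hc hc'' hy hy'' (Or.inr ?_)
        rw [hyb, hyx]
        exact hch'.1.symm
      have h2 := ih b w hch'.2 (by simp) (by simpa using hl)
        (fun z hz => hΩ z (List.mem_cons_of_mem _ hz)) c'' c' hc'' hc' ⟨y'', hy'', hyb⟩
        ⟨y', hy', hyw⟩
      have h3 := Subgroup.mul_mem _ h1 h2
      have h4 : c⁻¹ * c'' * (c''⁻¹ * c') = c⁻¹ * c' := by group
      rwa [h4] at h3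

theorem cfg (h1 : ProperStatement) : CFGStatement := by
  intro V X Γ _ _ hX hconn g K' Ω hΩ
  obtain ⟨F, hF, hcof⟩ := hΩ.cof
  have hfin : {c : Γ | c * g = g * c ∧ ∃ x ∈ F, ∃ y ∈ F, Nr X.G (c • x) y}.Finite := by
    have h2 := (h1 V X Γ hX).1 (F : Set V) (F : Set V) F.finite_toSet F.finite_toSet
    refine h2.subset ?_
    rintro c ⟨_, x, hx, y, hy, hn⟩
    exact ⟨x, by simpa using hx, y, by simpa using hy, hn⟩
  have hF0 : ∃ x₀, x₀ ∈ F := by
    obtain ⟨x, hx⟩ := hΩ.nonempty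
    obtain ⟨c, _, y, hy, _⟩ := hcof x hx
    exact ⟨y, hy⟩
  obtain ⟨x₀, hx₀⟩ := hF0
  refine ⟨hfin.toFinset, ?_⟩
  rw [hfin.coe_toFinset]
  apply le_antisymm
  · rw [Subgroup.closure_le]
    rintro c ⟨hc, _⟩
    rw [SetLike.mem_coe, Subgroup.mem_centralizer_iff]
    intro h hh
    rw [Set.mem_singleton_iff] at hh
    subst hh
    exact hc.symm
  · intro c hc
    rw [Subgroup.mem_centralizer_iff] at hc
    have hcg : c * g = g * c := (hc g rfl).symm
    have hxΩ := hF x₀ hx₀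
    obtain ⟨l, hl, hlΩ⟩ := hΩ.conn x₀ hxΩ (c • x₀) (hΩ.inv c hcg x₀ hxΩ)
    have := walk_aux X hX g Ω F hcof l x₀ (c • x₀) hl.chain hl.first hl.last hlΩ 1 c (by simp) hcg
      ⟨x₀, hx₀, one_smul _ _⟩ ⟨x₀, hx₀, rfl⟩
    simpa using this

end MSG.H35
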